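import Pool.Agent.helper47.AKL.SpecK

/-!
# Project A+ (MP_3703a7_ag): row KL1, the local hypothesis for `n_i = 1`
-/

set_option autoImplicit false

namespace Pool.Agent.AKL

open Polynomial Pool.Agent.HC Pool.Agent.HC.SJ Pool.Agent.SJ Pool.Agent.GJ Pool.Agent.TK Pool.Agent.TD
open Pool.Agent.FJ (VT Om chiO Jac Tup)
open Pool.Agent.AQ (PF galP eg Blk)
open Pool.Agent.TQ (VA galA zA)
open Pool.Agent.TI (TZ WA bs ES WC PL1_stmt PL2_stmt)
open scoped TensorProduct

noncomputable section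

theorem KL1_rank (hLDE : AQ.LDE_stmt) (hNB1 : TQ.NB1_stmt) (hDD : GJ.DD_stmt) (l q : ℕ) [Fact l.Prime] [Fact q.Prime]
    (D : Dat l) (θ : ∀ i, ExteriorAlgebra ℚ_[q] (VA D q i)) (hθ : TQ.IsOK D θ) (i : Fin D.k)
    (s : rootsOfUnity l Om) (hs : Prim s) (ζ : PadicAlgCl q) (hζ : IsPrimitiveRoot ζ l) (r : ℕ) (hr : 0 < r) (hrl : r < l) :
    Module.finrank (PadicAlgCl q) (ES D q i s ζ r) = D.n i := by
  have hl0 : NeZero (l : Om) := ⟨by exact_mod_cast (Fact.out (p := l.Prime)).ne_zero⟩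
  have hded : ∀ i, IsDedekindDomain (CR Om l (D.μ i) (D.a i)) := fun i => hDD Om l (D.n i) (D.μ i) (D.a i)
  obtain ⟨v, b, hb⟩ := hθ.free i s hs
  have h1 : ∑ j ∈ Finset.range l, (zA D q i s : Module.End ℚ_[q] (VA D q i)) ^ j = 0 :=
    (hNB1 l q D).2.2.2.2.2.2.1 i s hs
  exact (hLDE ℚ_[q] (PadicAlgCl q) (VA D q i) l (D.n i) Fact.out (zA D q i s) v b hb h1 ζ hζ).1 r hr hrl

theorem KL1 (hLDE : AQ.LDE_stmt) (hBGP : AQ.BGP_stmt) (hNB1 : TQ.NB1_stmt) (hDD : GJ.DD_stmt) : KL1_stmt := by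
  intro l q hlF hqF hl2 D hex hex' i hi
  obtain ⟨θ, hθ⟩ := hex
  obtain ⟨θ', hθ'⟩ := hex'
  have h1 : PF D 1 := (hBGP l q D).1
  have hid : ∀ (q : ℕ) [Fact q.Prime] (h : PF D 1), galP q h i = LinearMap.id := fun q _ h =>
    LinearMap.ext fun v => ((hBGP l q D).2.2.2 i).2.1 h v
  have hbs : ∀ (q : ℕ) [Fact q.Prime] (h : PF D 1), bs (galP q h i) = LinearMap.id := fun q _ h => by
    rw [hid q h]
    exact LinearMap.baseChange_id
  refine ⟨by rw [hi]; exact Nat.prime_two, 1, 1, h1, h1, ⟨h1, ?_⟩, ?_⟩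
  · intro s hs ζ hζ r hr hrl
    have hfr := KL1_rank hLDE hNB1 hDD l l D θ hθ i s hs ζ hζ r hr hrl
    have hfin : Module.Finite (PadicAlgCl l) (ES D l i s ζ r) :=
      Module.finite_of_finrank_pos (by rw [hfr, hi]; exact Nat.one_pos)
    refine ⟨1, fun _ => 1, Module.finBasisOfFinrankEq (PadicAlgCl l) (ES D l i s ζ r) hfr, one_ne_zero, ?_, ?_, ?_⟩
    · intro a b _
      apply Fin.ext
      have ha := a.2
      have hb := b.2
      omega
    · intro t
      exact one_pow _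
    · intro t
      rw [hbs l h1, one_smul]
      rfl
  · intro s hs ζ hζ r hr hrl
    have hfr := KL1_rank hLDE hNB1 hDD l q D θ' hθ' i s hs ζ hζ r hr hrl
    have hfin : Module.Finite (PadicAlgCl q) (ES D q i s ζ r) :=
      Module.finite_of_finrank_pos (by rw [hfr, hi]; exact Nat.one_pos)
    refine ⟨⟨1, fun x _ => ?_⟩, fun W hW _ _ => ?_⟩
    · rw [hbs q h1, one_smul]
      have : (LinearMap.id : Module.End (PadicAlgCl q) (WA D q i)) = 1 := rfl
      rw [this, one_pow]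
      rfl
    · by_cases h0 : W = ⊥
      · exact Or.inl h0
      · refine Or.inr ?_
        refine Submodule.eq_of_le_of_finrank_le hW ?_
        have hWf : Module.Finite (PadicAlgCl q) W := Submodule.finiteDimensional_of_le hW
        have hW1 : 1 ≤ Module.finrank (PadicAlgCl q) W :=
          Nat.one_le_iff_ne_zero.2 fun h => h0 (Submodule.finrank_eq_zero.1 h)
        exact (hfr.trans hi).le.trans hW1

end

end Pool.Agent.AKL
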